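import Pool.Agent.Lib.MP_c7af3c_ag.T2.H54.SizeG
import Pool.Agent.Lib.MP_c7af3c_ag.T2.Iface
import Pool.Agent.Lib.MP_c7af3c_ag.SHARP.H26.Pair

/-!
# MP_c7af3c_ag, project T2: module LOC (helper59), with the general version for tuples
-/

set_option autoImplicit false

namespace Pool.Agent.T2.H59

open MvPolynomial Pool.Agent.Gen Pool.Agent.Sharp Pool.Agent.Edge

section gen

variable {L : Type} [Field L] {Γ : Type} [LinearOrderedCommGroupWithZero Γ] {n c : ℕ}
  {d : Fin c → ℕ} (D : DSys L n c d) (x : Fin (n + 1) → L) (j0 : Fin (n + 1))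

/-- the local estimate of the determinant of `x`, tangent columns and the columns `V(X_j0^d)` -/
theorem loc_gen (hj0 : x j0 = 1) (h0 : ∀ m, eval x (D.F m) = 0) (v : Valuation L Γ) (M : Γ)
    (hM : 1 ≤ M) (hdel : ∀ m I, I.degree = d m → ∀ f, v f ≤ 1 → v (D.del m I f) ≤ M)
    {κ : Type} [Fintype κ] [DecidableEq κ] (e : (Unit ⊕ κ) ⊕ Fin c ≃ Fin (n + 1))
    (E : κ → Matrix (Fin (n + 1)) (Fin (n + 1)) L)
    (G : κ → Fin c → MvPolynomial (Fin (n + 1)) L) (g : κ → Γ) (u : κ → Fin (n + 1) → L)
    (hG : ∀ a m, (G a m).IsHomogeneous (d m)) (hE : ∀ a p q, v (E a p q) ≤ g a)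
    (hGc : ∀ a m I, v (coeff I (G a m)) ≤ g a)
    (hu : ∀ a, u a = (E a).mulVec x + VT D x (G a))
    (hker : ∀ a m, ∑ p, eval x (pderiv p (D.F m)) * u a p = 0)
    {iv : Fin (n + 1)} (hiv : x iv ≠ 0) (hle : ∀ j, v (x j) ≤ v (x iv)) :
    v (Matrix.det (Matrix.of fun a k => colU D x (Sum.elim (fun _ : Unit => x) u) j0 k (e a))) *
      v (x iv) ^ (∑ m, d m) ≤
      v (x iv) ^ (n + 1) * (M ^ Fintype.card κ * ∏ a, g a) * M ^ c := by
  classical
  set K : Unit ⊕ κ → Fin (n + 1) → L := Sum.elim (fun _ : Unit => x) u with hK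
  by_cases hli : LinearIndependent L K
  swap
  · have hdet : Matrix.det (Matrix.of fun a k => colU D x K j0 k (e a)) = 0 := by
      by_contra hne
      apply hli
      have h3 : (Matrix.of fun a k => colU D x K j0 k (e a)) =
          Matrix.transpose (Matrix.of fun k a => colU D x K j0 k (e a)) := rfl
      rw [h3, Matrix.det_transpose] at hne
      have h4 : LinearIndependent L (fun k a => colU D x K j0 k (e a)) :=
        Matrix.linearIndependent_rows_iff_isUnit.2
          ((Matrix.isUnit_iff_isUnit_det _).2 (isUnit_iff_ne_zero.2 hne))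
      have h5 : LinearIndependent L (colU D x K j0) :=
        LinearIndependent.of_comp (LinearMap.funLeft L L e) h4
      exact h5.comp Sum.inl Sum.inl_injective
    rw [hdet, map_zero, zero_mul]
    exact zero_le
  have hkerK : ∀ a m, ∑ p, eval x (pderiv p (D.F m)) * K a p = 0 := by
    rintro (a | a) m
    · exact grad_x D x h0 m
    · exact hker a m
  have hcard : Fintype.card (Unit ⊕ κ) + c = n + 1 := by
    have := Fintype.card_congr e
    rw [Fintype.card_sum, Fintype.card_fin, Fintype.card_fin] at this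
    exact this
  obtain ⟨μ, -, hμ⟩ := detU D x h0 K hli hkerK hcard hj0 e
  have hμ0 : Matrix.det (Matrix.of fun a k => colU D x K j0 k (e a)) = μ := by
    rw [hμ j0, hj0, one_pow, mul_one]
  rw [hμ0]
  set x' : Fin (n + 1) → L := (x iv)⁻¹ • x with hx'
  have hx'1 : ∀ p, v (x' p) ≤ 1 := fun p => T2.G.v_smul_le x hiv hle p
  have hb := T2.G.local_bound D x v M hdel hiv hle K (Sum.inl ()) rfl
    (Sum.elim (fun _ => 0) fun _ => 1)
    (Sum.elim (fun _ => x') fun a => (E a).mulVec x' + VT D x' (G a)) (fun _ => 1)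
    (Sum.elim (fun _ => 1) fun a => M * g a) ?_ ?_ e μ (hμ iv)
  · refine hb.trans (le_of_eq ?_)
    congr 2
    rw [Fintype.prod_sum_type]
    simp only [Sum.elim_inl, Sum.elim_inr, map_one, one_mul, Finset.prod_const_one]
    rw [Finset.prod_mul_distrib, Finset.prod_const, Finset.card_univ]
  · rintro (a | a)
    · simp only [Sum.elim_inl, one_mul]
      have h1 : K (Sum.inl a) - x iv • x' = 0 := by
        rw [hK, hx', smul_smul, mul_inv_cancel₀ hiv, one_smul]
        exact sub_self x
      rw [h1]
      exact Submodule.zero_mem _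
    · simp only [Sum.elim_inr, one_mul]
      have h1 : K (Sum.inr a) - x iv • ((E a).mulVec x' + VT D x' (G a)) =
          VT D x (G a) - x iv • VT D x' (G a) := by
        have h2 : x iv • (E a).mulVec x' = (E a).mulVec x := by
          rw [hx', Matrix.mulVec_smul, smul_smul, mul_inv_cancel₀ hiv, one_smul]
        rw [smul_add, h2]
        change u a - _ = _
        rw [hu a]
        abel
      rw [h1]
      refine Submodule.span_mono ?_ (VT_scale D x hiv (G a))
      rintro _ rfl
      exact ⟨Sum.inl (), Nat.zero_lt_one, rfl⟩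
  · rintro (a | a) p
    · exact hx'1 p
    · simp only [Sum.elim_inr]
      rw [Pi.add_apply]
      refine (v.map_add _ _).trans (max_le ?_ ?_)
      · have h1 : v ((E a).mulVec x' p) ≤ g a := by
          rw [Matrix.mulVec, dotProduct]
          refine v.map_sum_le fun q _ => ?_
          rw [map_mul]
          calc v (E a p q) * v (x' q) ≤ g a * 1 := mul_le_mul' (hE a p q) (hx'1 q)
            _ = g a := mul_one _
        calc _ ≤ g a := h1
          _ = 1 * g a := (one_mul _).symm
          _ ≤ M * g a := mul_le_mul' hM le_rfl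
      · rw [mul_comm]
        refine T2.G.VT_bound D x' v M (g a) hdel hx'1 (G a) (fun m I hI => ?_)
          (fun m I => hGc a m I) p
        have h2 := hG a m (mem_support_iff.1 hI)
        rw [← h2, Finsupp.degree_eq_weight_one]
        rfl

end gen

/-- Module LOC -/
theorem loc : LocStatement := by
  intro L _ Γ _ D x j0 hj0 h0 v M hM hdel s r ε E G g η w hG hE hGc hu hker j
  classical
  have h0' : ∀ m, eval x (D.F m) = 0 := by
    intro m
    obtain rfl : m = 0 := Subsingleton.elim _ _
    exact h0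
  obtain ⟨iv, -, hiv⟩ := Finset.exists_max_image Finset.univ (fun j => v (x j))
    Finset.univ_nonempty
  have hle : ∀ j, v (x j) ≤ v (x iv) := fun j => hiv j (Finset.mem_univ j)
  have hvx : v (x iv) ≠ 0 := by
    have h1 := hle j0
    rw [hj0, map_one] at h1
    exact (lt_of_lt_of_le zero_lt_one h1).ne'
  have hiv0 : x iv ≠ 0 := (map_ne_zero v).1 hvx
  have key := loc_gen D x j0 hj0 h0' v M hM (fun m I hI f hf => by
      obtain rfl : m = 0 := Subsingleton.elim _ _
      exact hdel I hI f hf) ε E (fun a _ => G a) g (Sum.elim η w)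
    (fun a m => hG a) hE (fun a m I => hGc a I) (fun a => by
      rw [hu a, VT_apply, Fin.sum_univ_one]) (fun a m => by
      obtain rfl : m = 0 := Subsingleton.elim _ _
      exact hker a) hiv0 hle
  have hcard : s + r = 3 := by
    have := Fintype.card_congr ε
    simp only [Fintype.card_sum, Fintype.card_fin, Fintype.card_unit] at this
    omega
  have hd : v (dt D x j0 ε η w) * v (x iv) ^ 6 ≤
      v (x iv) ^ 5 * (M ^ 4 * ∏ a, g a) := by
    refine key.trans (le_of_eq ?_)
    rw [Fintype.card_sum, Fintype.card_fin, Fintype.card_fin, hcard, mul_assoc, mul_right_comm,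
      ← pow_add]
  have h6 : v (dt D x j0 ε η w) * v (x iv) ≤ M ^ 4 * ∏ a, g a := by
    have h5 : 0 < v (x iv) ^ 5 := pow_pos (zero_lt_iff.2 hvx) 5
    refine le_of_mul_le_mul_left (a := v (x iv) ^ 5) ?_ h5
    calc v (x iv) ^ 5 * (v (dt D x j0 ε η w) * v (x iv)) =
        v (dt D x j0 ε η w) * v (x iv) ^ 6 := by
          rw [mul_left_comm, ← pow_succ]
      _ ≤ _ := hd
  exact (mul_le_mul' le_rfl (hle j)).trans h6

end Pool.Agent.T2.H59
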