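import Pool.Agent.Lib.MP_c7af3c_ag.T2.H59.Loc
import Pool.Agent.Lib.MP_c7af3c_ag.T2.H54.Basic
import Pool.Agent.Lib.MP_c7af3c_ag.EDGE.H19.Refine
import Mathlib.LinearAlgebra.Alternating.Uncurry.Fin

/-!
# MP_c7af3c_ag, project T2: module TAUB (helper59), with the general version for tuples
-/

set_option autoImplicit false

namespace Pool.Agent.T2.H59

open MvPolynomial Pool.Agent.Gen Pool.Agent.Sharp Pool.Agent.Edge Pool.Agent.Edge.H19

section alt

variable {K : Type} [Field K] {N r : ℕ}

/-- the contraction of an alternating form with a coordinate -/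
noncomputable def ctr (ω : (Fin N → K) [⋀^Fin r]→ₗ[K] K) :
    (K × (Fin N → K)) [⋀^Fin (r + 1)]→ₗ[K] K :=
  AlternatingMap.alternatizeUncurryFin
    ((LinearMap.toSpanSingleton K _ (ω.compLinearMap (LinearMap.snd K K (Fin N → K)))).comp
      (LinearMap.fst K K (Fin N → K)))

theorem ctr_apply (ω : (Fin N → K) [⋀^Fin r]→ₗ[K] K) (u : Fin (r + 1) → K × (Fin N → K)) :
    ctr ω u = ∑ a : Fin (r + 1), (-1) ^ (a : ℕ) * (u a).1 *
      ω fun b => (u (a.succAbove b)).2 := by
  unfold ctr
  rw [AlternatingMap.alternatizeUncurryFin_apply]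
  refine Finset.sum_congr rfl fun a _ => ?_
  rw [LinearMap.comp_apply, LinearMap.toSpanSingleton_apply, AlternatingMap.smul_apply,
    AlternatingMap.compLinearMap_apply, LinearMap.fst_apply, smul_eq_mul, mul_assoc]
  rw [zsmul_eq_mul]
  push_cast
  rfl

/-- subtracting the multiple of a vector does not change the contraction -/
theorem contr (ω : (Fin N → K) [⋀^Fin r]→ₗ[K] K) (f : Fin (r + 1) → K)
    (v : Fin (r + 1) → Fin N → K) (ψ : Fin N → K) :
    ∑ a : Fin (r + 1), (-1) ^ (a : ℕ) * f a *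
        ω (fun b => v (a.succAbove b) - f (a.succAbove b) • ψ) =
      ∑ a : Fin (r + 1), (-1) ^ (a : ℕ) * f a * ω fun b => v (a.succAbove b) := by
  classical
  let T : (K × (Fin N → K)) →ₗ[K] (K × (Fin N → K)) :=
    LinearMap.prod (LinearMap.fst K K (Fin N → K))
      (LinearMap.snd K K (Fin N → K) - (LinearMap.fst K K (Fin N → K)).smulRight ψ)
  have key : (ctr ω).compLinearMap T = ctr ω := by
    refine Module.Basis.ext_alternating
      ((Module.Basis.singleton Unit K).prod (Pi.basisFun K (Fin N))) fun σ hσ => ?_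
    rw [AlternatingMap.compLinearMap_apply, ctr_apply, ctr_apply]
    refine Finset.sum_congr rfl fun a _ => ?_
    rcases h : σ a with q | q
    · have h1 : ∀ b, ∃ p, σ (a.succAbove b) = Sum.inr p := by
        intro b
        rcases h2 : σ (a.succAbove b) with p | p
        · exfalso
          have h3 : σ (a.succAbove b) = σ a := by rw [h, h2]
          exact Fin.succAbove_ne a b (hσ h3)
        · exact ⟨p, rfl⟩
      congr 1
      congr 1
      funext b
      obtain ⟨p, hp⟩ := h1 b
      simp [T, hp]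
    · simp [T]
  have h1 := congrArg (fun F => F fun a => (f a, v a)) key
  simp only [AlternatingMap.compLinearMap_apply, ctr_apply] at h1
  simpa [T] using h1

end alt

section om

variable {L : Type} [Field L] {n c : ℕ} {d : Fin c → ℕ} (D : DSys L n c d)
  (x : Fin (n + 1) → L) (j0 : Fin (n + 1)) {s r : ℕ}
  (ε : (Unit ⊕ (Fin s ⊕ Fin r)) ⊕ Fin c ≃ Fin (n + 1)) (η : Fin s → Fin (n + 1) → L)

/-- all columns -/
noncomputable def colsG (w : Fin r → Fin (n + 1) → L) :
    (Unit ⊕ (Fin s ⊕ Fin r)) ⊕ Fin c → Fin (n + 1) → L :=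
  colU D x (Sum.elim (fun _ : Unit => x) (Sum.elim η w)) j0

/-- the determinant of `x`, the columns `η`, `w` and the columns `V(X_j0^d)` -/
noncomputable def dtG (w : Fin r → Fin (n + 1) → L) : L :=
  Matrix.det (Matrix.of fun a k => colU D x (Sum.elim (fun _ : Unit => x) (Sum.elim η w)) j0 k
    (ε a))

theorem dtG_eq (w : Fin r → Fin (n + 1) → L) :
    dtG D x j0 ε η w = detA ε (colsG D x j0 η w) := by
  rw [detA_apply]
  rfl

theorem colsG_update [DecidableEq (Fin r)] [DecidableEq ((Unit ⊕ (Fin s ⊕ Fin r)) ⊕ Fin c)]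
    (w : Fin r → Fin (n + 1) → L) (b : Fin r) (u : Fin (n + 1) → L) :
    colsG D x j0 η (Function.update w b u) =
      Function.update (colsG D x j0 η w) (Sum.inl (Sum.inr (Sum.inr b))) u := by
  funext k
  rcases k with (a | (a | a)) | m
  · rw [Function.update_of_ne (by simp)]
    rfl
  · rw [Function.update_of_ne (by simp)]
    rfl
  · by_cases h : a = b
    · subst h
      rw [Function.update_self]
      simp only [colsG, colU, Sum.elim_inl, Sum.elim_inr, Function.update_self]
    · rw [Function.update_of_ne (by simpa using h)]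
      simp only [colsG, colU, Sum.elim_inl, Sum.elim_inr, Function.update_of_ne h]
  · rw [Function.update_of_ne (by simp)]
    rfl

/-- `dtG` as an alternating form in the columns `w` -/
noncomputable def omG : (Fin (n + 1) → L) [⋀^Fin r]→ₗ[L] L where
  toFun w := dtG D x j0 ε η w
  map_update_add' w b u v := by
    classical
    rw [dtG_eq, dtG_eq, dtG_eq, colsG_update, colsG_update, colsG_update,
      AlternatingMap.map_update_add]
  map_update_smul' w b a u := by
    classical
    rw [dtG_eq, dtG_eq, colsG_update, colsG_update, AlternatingMap.map_update_smul]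
  map_eq_zero_of_eq' w b b' h hb := by
    rw [dtG_eq]
    refine AlternatingMap.map_eq_zero_of_eq _ _ (i := Sum.inl (Sum.inr (Sum.inr b)))
      (j := Sum.inl (Sum.inr (Sum.inr b'))) h ?_
    simpa using hb

theorem omG_apply (w : Fin r → Fin (n + 1) → L) : omG D x j0 ε η w = dtG D x j0 ε η w := rfl

/-- the contracted determinant of one block -/
noncomputable def tauG (A : Fin c → MvPolynomial (Fin (n + 1)) L)
    (i : Fin (r + 1) → Fin (n + 1)) : L :=
  ∑ a : Fin (r + 1), (-1) ^ (a : ℕ) * x (i a) *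
    dtG D x j0 ε η fun b => VT D x (mulT A (lf x j0 (i (a.succAbove b))))

/-- the contracted determinant with the forms `X_i - (x_i / x_iv) X_iv` -/
theorem tauG_eq (hj0 : x j0 = 1) {iv : Fin (n + 1)} (hiv : x iv ≠ 0)
    (A : Fin c → MvPolynomial (Fin (n + 1)) L) (i : Fin (r + 1) → Fin (n + 1)) :
    tauG D x j0 ε η A i = ∑ a : Fin (r + 1), (-1) ^ (a : ℕ) * x (i a) *
      dtG D x j0 ε η fun b =>
        VT D x (mulT A (X (i (a.succAbove b)) - C (x (i (a.succAbove b)) / x iv) * X iv)) := by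
  have h := contr (omG D x j0 ε η) (fun a => x (i a))
    (fun a => VT D x (mulT A (X (i a) - C (x (i a) / x iv) * X iv)))
    (VT D x (mulT A (X j0 - C (x j0 / x iv) * X iv)))
  simp only [omG_apply] at h
  rw [← h]
  unfold tauG
  refine Finset.sum_congr rfl fun a _ => ?_
  congr 2
  funext b
  rw [← map_smul, ← map_sub]
  congr 1
  funext m
  simp only [mulT, Pi.sub_apply, Pi.smul_apply, lf]
  rw [smul_eq_C_mul, hj0]
  have h1 : (C (x (i (a.succAbove b)) / x iv) : MvPolynomial (Fin (n + 1)) L) =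
      C (x (i (a.succAbove b))) * C (1 / x iv) := by
    rw [← C_mul, mul_one_div]
  rw [h1]
  ring

end om

section size

variable {Ω : Type} [Field Ω] {k : Subfield Ω} {Γ : Type} [LinearOrderedCommGroupWithZero Γ]
  (S : Sizes Ω k Γ) {n c : ℕ} {d : Fin c → ℕ} (D : DSys Ω n c d) (x : Fin (n + 1) → Ω)

/-- bounded tangent columns -/
def BCol (u : Fin (n + 1) → Ω) : Prop :=
  (∀ m, ∑ p, eval x (pderiv p (D.F m)) * u p = 0) ∧
  ∃ (E : Matrix (Fin (n + 1)) (Fin (n + 1)) Ω) (G : Fin c → MvPolynomial (Fin (n + 1)) Ω)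
    (g : S.V → Γ), S.Small g ∧ (∀ m, (G m).IsHomogeneous (d m)) ∧
    (∀ p a b, S.v p (E a b) ≤ g p) ∧ (∀ p m I, S.v p (coeff I (G m)) ≤ g p) ∧
    u = E.mulVec x + VT D x G

variable {S D x}

theorem bcol_W {j0 : Fin (n + 1)} (h : Sit S D x j0) (p q : Fin (n + 1)) :
    BCol S D x (WT D x p q) := by
  classical
  refine ⟨grad_WT D x h.h0 p q, Matrix.single p q 1, fun m => X q * pderiv p (D.F m),
    S.MF D, h.small_MF, fun m => hom_XF' D m p q, fun P a b => ?_, fun P m I => ?_, ?_⟩
  · rw [Matrix.single_apply]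
    split_ifs
    · rw [map_one]
      exact S.one_le_MF D P
    · rw [map_zero]
      exact zero_le
  · exact T2.G.CB_XF (S.CB_F D P m) p q I
  · unfold WT
    congr 1
    funext a
    rw [Matrix.single_mulVec]
    simp [Pi.single_apply, Function.update_apply]

/-- a small bound of the coefficients of a tuple over `k` -/
theorem small_coeff (G : Fin c → MvPolynomial (Fin (n + 1)) Ω)
    (hG : ∀ m I, coeff I (G m) ∈ k) :
    ∃ g : S.V → Γ, S.Small g ∧ ∀ p m I, S.v p (coeff I (G m)) ≤ g p := by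
  classical
  refine ⟨fun p => ∏ m, ∏ I ∈ (G m).support, S.sz (coeff I (G m)) p,
    Sizes.Small.prod Finset.univ fun m _ => Sizes.Small.prod (G m).support fun I _ =>
      S.small_sz (hG m I), fun p m I => ?_⟩
  by_cases hI : I ∈ (G m).support
  · calc S.v p (coeff I (G m)) ≤ S.sz (coeff I (G m)) p := S.le_sz _ p
      _ ≤ ∏ I ∈ (G m).support, S.sz (coeff I (G m)) p :=
        Finset.single_le_prod' (f := fun I => S.sz (coeff I (G m)) p)
          (fun i _ => S.one_le_sz _ p) hI
      _ ≤ ∏ m, ∏ I ∈ (G m).support, S.sz (coeff I (G m)) p :=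
        Finset.single_le_prod' (f := fun m => ∏ I ∈ (G m).support, S.sz (coeff I (G m)) p)
          (fun i _ => Finset.one_le_prod' fun _ _ => S.one_le_sz _ p) (Finset.mem_univ m)
  · rw [notMem_support_iff.1 hI, map_zero]
    exact zero_le

theorem bcol_V {j0 : Fin (n + 1)} (h : Sit S D x j0) (G : Fin c → MvPolynomial (Fin (n + 1)) Ω)
    (hG : ∀ m, (G m).IsHomogeneous (d m)) (hGk : ∀ m I, coeff I (G m) ∈ k)
    (hx : ∀ m, eval x (G m) = 0) : BCol S D x (VT D x G) := by
  obtain ⟨g, hg, hg'⟩ := small_coeff (S := S) G hGk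
  refine ⟨fun m => ?_, 0, G, g, hg, hG, fun p a b => ?_, hg', ?_⟩
  · rw [grad_VT D x h.h0 G hG m, hx m, neg_zero]
  · rw [Matrix.zero_apply, map_zero]
    exact zero_le
  · rw [Matrix.zero_mulVec, zero_add]

/-- Module TAUB, general version -/
theorem taub_gen {j0 : Fin (n + 1)} (h : Sit S D x j0) (hd : ∑ m, d m = n + 2) {s r : ℕ}
    (ε : (Unit ⊕ (Fin s ⊕ Fin r)) ⊕ Fin c ≃ Fin (n + 1)) (η : Fin s → Fin (n + 1) → Ω)
    (hη : ∀ a, BCol S D x (η a)) (A : Fin c → MvPolynomial (Fin (n + 1)) Ω)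
    (hA : ∀ m (l : MvPolynomial (Fin (n + 1)) Ω), l.IsHomogeneous 1 →
      (A m * l).IsHomogeneous (d m)) (hAk : ∀ m I, coeff I (A m) ∈ k)
    (i : Fin (r + 1) → Fin (n + 1)) : tauG D x j0 ε η A i ∈ k := by
  classical
  choose hη0 E G g hg hG hE hGc hu using hη
  obtain ⟨gA, hgA, hgA'⟩ := small_coeff (S := S) A hAk
  have hB : S.Small fun p => S.M p ^ (s + r + c) * ((∏ a, g a p) * gA p ^ r) :=
    (S.small_M.pow _).mul ((Sizes.Small.prod Finset.univ fun a _ => hg a).mul (hgA.pow r))
  refine (hB.mono fun p => ?_ : S.Small fun p => S.v p (tauG D x j0 ε η A i)).mem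
  obtain ⟨iv, -, hiv⟩ := Finset.exists_max_image Finset.univ (fun j => S.v p (x j))
    Finset.univ_nonempty
  have hle : ∀ j, S.v p (x j) ≤ S.v p (x iv) := fun j => hiv j (Finset.mem_univ j)
  have hvx : S.v p (x iv) ≠ 0 := by
    have h1 := hle j0
    rw [h.hj0, map_one] at h1
    exact (lt_of_lt_of_le zero_lt_one h1).ne'
  have hiv0 : x iv ≠ 0 := (map_ne_zero (S.v p)).1 hvx
  rw [tauG_eq D x j0 ε η h.hj0 hiv0]
  refine (S.v p).map_sum_le fun a _ => ?_
  set l : Fin r → MvPolynomial (Fin (n + 1)) Ω := fun b =>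
    X (i (a.succAbove b)) - C (x (i (a.succAbove b)) / x iv) * X iv with hl
  have hl1 : ∀ b, (l b).IsHomogeneous 1 := fun b =>
    (isHomogeneous_X Ω _).sub (by
      have h1 := (isHomogeneous_C (Fin (n + 1)) (x (i (a.succAbove b)) / x iv)).mul
        (isHomogeneous_X Ω iv)
      rwa [zero_add] at h1)
  have hl2 : ∀ b, eval x (l b) = 0 := fun b => by
    simp only [hl, map_sub, map_mul, eval_X, eval_C]
    rw [div_mul_cancel₀ _ hiv0, sub_self]
  have hl3 : ∀ b, T2.G.CB (S.v p) (l b) 1 := fun b => by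
    refine T2.G.CB.sub _ (T2.G.CB_X _ _) ((T2.G.CB_CX _ _ _).mono _ ?_)
    rw [map_div₀]
    exact (div_le_one₀ (zero_lt_iff.2 hvx)).2 (hle _)
  have key := loc_gen D x j0 h.hj0 h.h0 (S.v p) (S.M p) (S.one_le p)
    (fun m I hI f hf => h.hdel p m I hI f hf) ε (Sum.elim E fun _ => 0)
    (Sum.elim G fun b => mulT A (l b)) (Sum.elim (fun a => g a p) fun _ => gA p)
    (Sum.elim η fun b => VT D x (mulT A (l b))) ?_ ?_ ?_ ?_ ?_ hiv0 hle
  · have h1 : S.v p (dtG D x j0 ε η fun b => VT D x (mulT A (l b))) * S.v p (x iv) ≤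
        S.M p ^ (s + r + c) * ((∏ a, g a p) * gA p ^ r) := by
      have h5 : 0 < S.v p (x iv) ^ (n + 1) := pow_pos (zero_lt_iff.2 hvx) _
      refine le_of_mul_le_mul_left (a := S.v p (x iv) ^ (n + 1)) ?_ h5
      have e1 : S.v p (x iv) ^ (n + 1) *
          (S.v p (dtG D x j0 ε η fun b => VT D x (mulT A (l b))) * S.v p (x iv)) =
          S.v p (dtG D x j0 ε η fun b => VT D x (mulT A (l b))) *
            S.v p (x iv) ^ (∑ m, d m) := by
        rw [hd, mul_left_comm, ← pow_succ]
      rw [e1]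
      refine key.trans (le_of_eq ?_)
      rw [Fintype.card_sum, Fintype.card_fin, Fintype.card_fin, Fintype.prod_sum_type]
      simp only [Sum.elim_inl, Sum.elim_inr, Finset.prod_const, Finset.card_univ,
        Fintype.card_fin]
      rw [mul_assoc, mul_right_comm, ← pow_add]
    rw [map_mul, map_mul, map_pow, Valuation.map_neg, map_one, one_pow, one_mul, mul_comm]
    exact (mul_le_mul' le_rfl (hle _)).trans h1
  · rintro (a | b) m
    · exact hG a m
    · exact hA m _ (hl1 b)
  · rintro (a | b) P Q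
    · exact hE a p P Q
    · simp only [Sum.elim_inr, Matrix.zero_apply, map_zero]
      exact zero_le
  · rintro (a | b) m I
    · exact hGc a p m I
    · have h1 := T2.G.CB.mul (S.v p) (G := A m) (H := l b) (b := gA p) (b' := 1)
        (fun I => hgA' p m I) (hl3 b) I
      rwa [mul_one] at h1
  · rintro (a | b)
    · exact hu a
    · simp only [Sum.elim_inr, Matrix.zero_mulVec, zero_add]
  · rintro (a | b) m
    · exact hη0 a m
    · simp only [Sum.elim_inr]
      rw [grad_VT D x h.h0 (mulT A (l b)) (fun m => hA m _ (hl1 b)) m]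
      simp only [mulT, map_mul, hl2 b, mul_zero, neg_zero]

end size

/-- Module TAUB -/
theorem taub : TaubStatement := by
  intro _ Ω _ _ k Γ _ S D x j0 h s r ε η hη A hA i
  have h1 := taub_gen (S := S) (D := D) (x := x) h (by simp) ε η (fun a => ?_) (fun _ => A)
    (fun m l hl => hA.1.mul hl) (fun m I => hA.2 I) i
  · have h2 : tauG D x j0 ε η (fun _ => A) i = tauB D x j0 ε η A i := by
      unfold tauG tauB
      refine Finset.sum_congr rfl fun a _ => ?_
      congr 1
      change dtG D x j0 ε η _ = dtG D x j0 ε η _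
      congr 1
      funext b
      rw [VT_apply, Fin.sum_univ_one]
      rfl
    rwa [h2] at h1
  · rcases hη a with ⟨p, q, hpq⟩ | ⟨G, hG, hGx, hGe⟩
    · rw [hpq]
      exact bcol_W h p q
    · rw [hGe]
      have h3 := bcol_V (S := S) (D := D) (x := x) h (fun _ => G) (fun _ => hG.1)
        (fun _ I => hG.2 I) (fun _ => hGx)
      rwa [VT_apply, Fin.sum_univ_one] at h3

end Pool.Agent.T2.H59
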